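import Pool.Agent.Helper96.SE.St
import Pool.Agent.Helper24.WS.M_W3

/-!
# Project SE, module E1
-/

set_option autoImplicit false

namespace Pool.Agent.Helper24.SE

open Polynomial
open Pool.Agent.Helper96.SE Pool.Agent.Helper96.BC Pool.Agent.Helper95.TT Pool.Agent.Helper24.TF
  Pool.Agent.Helper95.WS
open scoped Classical

noncomputable section

theorem hE1 : StW2 → StE1 := by
  intro hW2 F _ _ ψ f n hn hψ hψn hf hNP
  obtain ⟨P0, f0, a, hP0i, hP0f0, hna, hf0⟩ := hNP
  have hP00 : P0 ≠ 0 := hP0i.ne_zero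
  have hlc : P0.leadingCoeff ≠ 0 := leadingCoeff_ne_zero.2 hP00
  -- normalize
  set P : F[X] := C (P0.leadingCoeff)⁻¹ * P0 with hP
  set f₁ : F[X] := C (P0.leadingCoeff ^ a) * f0 with hf1
  have hPm : P.Monic := by
    rw [hP, Monic, leadingCoeff_mul, leadingCoeff_C, inv_mul_cancel₀ hlc]
  have hassoc : Associated P0 P := by
    rw [hP]
    exact (associated_unit_mul_left P0 _ (isUnit_C.2 (inv_ne_zero hlc).isUnit)).symm
  have hPi : Irreducible P := (hassoc.irreducible_iff).1 hP0i
  have hff : f = P ^ a * f₁ := by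
    rw [hf0, hP, hf1, mul_pow, ← C_pow]
    have : (C ((P0.leadingCoeff)⁻¹ ^ a) * P0 ^ a) * (C (P0.leadingCoeff ^ a) * f0) =
        C ((P0.leadingCoeff)⁻¹ ^ a * P0.leadingCoeff ^ a) * (P0 ^ a * f0) := by
      rw [C_mul]; ring
    rw [this, ← mul_pow, inv_mul_cancel₀ hlc, one_pow, C_1, one_mul]
  have hPf : ¬ P ∣ f₁ := by
    intro h
    apply hP0f0
    have h1 : P0 ∣ f₁ := hassoc.dvd.trans h
    have h2 : f₁ = C (P0.leadingCoeff ^ a) * f0 := rfl
    have h3 : IsUnit (C (P0.leadingCoeff ^ a)) := isUnit_C.2 (pow_ne_zero _ hlc).isUnit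
    rw [h2] at h1
    exact (h3.dvd_mul_left).1 h1
  have hf₁ : f₁.Monic := (hPm.pow a).of_mul_monic_left (hff ▸ hf)
  have hcop : IsCoprime P f₁ := (hPi.coprime_iff_not_dvd).2 hPf
  obtain ⟨A, B, hAB⟩ := hcop
  have : Fact (Irreducible P) := ⟨hPi⟩
  have : Module.Finite F (AdjoinRoot P) := (AdjoinRoot.powerBasis hPi.ne_zero).finite
  have : Finite (AdjoinRoot P) := Module.finite_of_finite F
  have : Fintype (AdjoinRoot P) := Fintype.ofFinite _
  obtain ⟨b, hb⟩ := MulChar.ne_one_iff.1 hψ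
  obtain ⟨y, hy⟩ := FiniteField.norm_surjective F (AdjoinRoot P) (b : F)
  obtain ⟨g, rfl⟩ := AdjoinRoot.mk_surjective y
  set θ : AdjoinRoot P := AdjoinRoot.root P with hθ
  have hmin : minpoly F θ = P := by
    rw [hθ, AdjoinRoot.minpoly_root hPi.ne_zero, hPm.leadingCoeff]
    simp
  have hfin : Module.finrank F (AdjoinRoot P) = P.natDegree := by
    rw [(AdjoinRoot.powerBasis hPi.ne_zero).finrank, AdjoinRoot.powerBasis_dim]
  have hPd : 0 < P.natDegree := hPi.natDegree_pos
  set u : F[X] := g * B * f₁ + A * P with hu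
  have hu1 : u = g + P * (A * (1 - g)) := by
    rw [hu]
    linear_combination g * hAB
  have hu2 : u = 1 + f₁ * (B * (g - 1)) := by
    rw [hu]
    linear_combination hAB
  set N : ℕ := u.natDegree + g.natDegree + ((A * (1 - g)).natDegree + P.natDegree) +
    ((B * (g - 1)).natDegree + f₁.natDegree) with hN
  have hdeg : (P ^ a * f₁).natDegree = (P ^ a).natDegree + f₁.natDegree :=
    (hPm.pow a).natDegree_mul hf₁
  have hres : resultant f u f.natDegree u.natDegree = (b : F) ^ a := by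
    rw [← Pool.Agent.Helper24.WS.res_size hf (n := N) (by omega), hff, hdeg,
      resultant_mul_left (P ^ a) f₁ u N (by omega)]
    have e1 : resultant P u P.natDegree N = (b : F) := by
      rw [hu1, resultant_add_mul_right P g (A * (1 - g)) P.natDegree N (by omega) le_rfl]
      have h := (hW2 F (AdjoinRoot P) θ).2 g N (by omega)
      rw [hmin, hfin, Nat.div_self hPd, pow_one] at h
      rw [← h, ← hy]
      congr 1
      rw [hθ, AdjoinRoot.aeval_eq]
    have e1' : resultant (P ^ a) u (P ^ a).natDegree N = (b : F) ^ a := by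
      have h0 : P.leadingCoeff ^ a ≠ 0 := by
        rw [hPm.leadingCoeff, one_pow]; exact one_ne_zero
      rw [resultant_pow_left P u a N h0 (by omega), e1]
    have e2 : resultant f₁ u f₁.natDegree N = 1 := by
      rw [hu2, resultant_add_mul_right f₁ 1 (B * (g - 1)) f₁.natDegree N (by omega) le_rfl,
        resultant_one_right, coeff_natDegree, hf₁.leadingCoeff, one_pow]
    rw [e1', e2, mul_one]
  refine ⟨u, by rw [hres]; exact pow_ne_zero _ b.ne_zero, ?_⟩
  rw [hres, map_pow]
  intro h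
  apply hb
  have h1 : ψ (b : F) ^ n = 1 := by
    rw [← MulChar.pow_apply_coe, hψn, MulChar.one_apply_coe]
  have h2 : orderOf (ψ (b : F)) ∣ Nat.gcd a n :=
    Nat.dvd_gcd (orderOf_dvd_of_pow_eq_one h) (orderOf_dvd_of_pow_eq_one h1)
  have h3 : Nat.gcd a n = 1 := ((Nat.Prime.coprime_iff_not_dvd hn).2 hna).symm
  rw [h3, Nat.dvd_one, orderOf_eq_one_iff] at h2
  exact h2

end

end Pool.Agent.Helper24.SE
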