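import Pool.Agent.Helper96.SE.St

/-!
# Project SE, module E10
-/

set_option autoImplicit false

namespace Pool.Agent.Helper24.SE

open Polynomial Filter Topology
open Pool.Agent.Helper96.SE Pool.Agent.Helper96.BC Pool.Agent.Helper95.TT Pool.Agent.Helper24.TF
  Pool.Agent.Helper95.WS
open scoped Classical

noncomputable section

private theorem sumE10 {V : Type} {w g : V → ℝ} {E : ℝ} (hw0 : ∀ v, 0 ≤ w v) (hw : Summable w)
    (hg : ∀ v, |g v| ≤ E) : Summable (fun v => w v * g v) ∧ |∑' v, w v * g v| ≤ |E| * ∑' v, w v := by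
  have h1 : ∀ v, ‖w v * g v‖ ≤ w v * |E| := by
    intro v
    rw [norm_mul, Real.norm_eq_abs, Real.norm_eq_abs, abs_of_nonneg (hw0 v)]
    exact mul_le_mul_of_nonneg_left ((hg v).trans (le_abs_self E)) (hw0 v)
  have h2 : Summable (fun v => w v * |E|) := hw.mul_right _
  refine ⟨Summable.of_norm_bounded h2 h1, ?_⟩
  have h3 := tsum_of_norm_bounded h2.hasSum h1
  rw [tsum_mul_right, Real.norm_eq_abs, mul_comm] at h3
  exact h3

theorem hE10 : StE10 := by
  intro V ι _ w G κ N A E hN hA hw hW hG hκ hκd hker hlim ε hε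
  set W : ℝ → ℝ := fun s => ∑' v, w s v with hWd
  set y : ℝ → ι → ℝ := fun s i => ∑' v, w s v * G i v with hy
  set Γ : ℝ → ι → ι → ℝ := fun s i j => ∑' v, w s v * κ i j v with hΓ
  set δ : ℝ → ℝ := fun s => N⁻¹ * ((|E| * W s) ^ 2 *
    ∑ i, ∑ j, (if i ≠ j then |Γ s i j| else 0)) with hδ
  have hmain : ∀ s, (∀ v, 0 ≤ w s v) → Summable (w s) →
      2 * ∑ i, (y s i) ^ 2 ≤ N * A * W s + W s * ∑ i, (y s i) ^ 2 + δ s := by
    intro s hs0 hss
    have hW0 : 0 ≤ W s := tsum_nonneg hs0
    have hGs := fun i => sumE10 hs0 hss (hG i)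
    have hκs := fun i j => sumE10 hs0 hss (hκ i j)
    have hyb : ∀ i, |y s i| ≤ |E| * W s := fun i => (hGs i).2
    -- integrate the kernel inequality
    have h1 : ∑' v, w s v * (2 * ∑ i, y s i * G i v) ≤
        ∑' v, w s v * (N * A + N⁻¹ * ∑ i, ∑ j, y s i * y s j * κ i j v) := by
      have e1 : ∀ v, w s v * (2 * ∑ i, y s i * G i v) =
          ∑ i, (2 * y s i) * (w s v * G i v) := by
        intro v
        rw [Finset.mul_sum, Finset.mul_sum]
        exact Finset.sum_congr rfl (fun i _ => by ring)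
      have e2 : ∀ v, w s v * (N * A + N⁻¹ * ∑ i, ∑ j, y s i * y s j * κ i j v) =
          (N * A) * w s v + ∑ i, ∑ j, (N⁻¹ * (y s i * y s j)) * (w s v * κ i j v) := by
        intro v
        rw [mul_add, Finset.mul_sum, Finset.mul_sum]
        congr 1
        · ring
        · refine Finset.sum_congr rfl (fun i _ => ?_)
          rw [Finset.mul_sum, Finset.mul_sum]
          exact Finset.sum_congr rfl (fun j _ => by ring)
      refine Summable.tsum_le_tsum (fun v => mul_le_mul_of_nonneg_left (hker v (y s)) (hs0 v))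
        ?_ ?_
      · simp_rw [e1]
        exact summable_sum (fun i _ => (hGs i).1.mul_left _)
      · simp_rw [e2]
        exact (hss.mul_left _).add (summable_sum (fun i _ => summable_sum
          (fun j _ => (hκs i j).1.mul_left _)))
    have h2 : ∑' v, w s v * (2 * ∑ i, y s i * G i v) = 2 * ∑ i, (y s i) ^ 2 := by
      have e1 : ∀ v, w s v * (2 * ∑ i, y s i * G i v) =
          ∑ i, (2 * y s i) * (w s v * G i v) := by
        intro v
        rw [Finset.mul_sum, Finset.mul_sum]
        exact Finset.sum_congr rfl (fun i _ => by ring)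
      simp_rw [e1]
      rw [Summable.tsum_finsetSum (fun i _ => (hGs i).1.mul_left _), Finset.mul_sum]
      refine Finset.sum_congr rfl (fun i _ => ?_)
      rw [tsum_mul_left]
      have : ∑' v, w s v * G i v = y s i := rfl
      rw [this]; ring
    have h3 : ∑' v, w s v * (N * A + N⁻¹ * ∑ i, ∑ j, y s i * y s j * κ i j v) =
        N * A * W s + ∑ i, ∑ j, (N⁻¹ * (y s i * y s j)) * Γ s i j := by
      have e2 : ∀ v, w s v * (N * A + N⁻¹ * ∑ i, ∑ j, y s i * y s j * κ i j v) =
          (N * A) * w s v + ∑ i, ∑ j, (N⁻¹ * (y s i * y s j)) * (w s v * κ i j v) := by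
        intro v
        rw [mul_add, Finset.mul_sum, Finset.mul_sum]
        congr 1
        · ring
        · refine Finset.sum_congr rfl (fun i _ => ?_)
          rw [Finset.mul_sum, Finset.mul_sum]
          exact Finset.sum_congr rfl (fun j _ => by ring)
      simp_rw [e2]
      rw [Summable.tsum_add (hss.mul_left _) (summable_sum (fun i _ => summable_sum
          (fun j _ => (hκs i j).1.mul_left _))), tsum_mul_left,
        Summable.tsum_finsetSum (fun i _ => summable_sum
          (fun j _ => (hκs i j).1.mul_left _))]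
      congr 1
      refine Finset.sum_congr rfl (fun i _ => ?_)
      rw [Summable.tsum_finsetSum (fun j _ => (hκs i j).1.mul_left _)]
      refine Finset.sum_congr rfl (fun j _ => ?_)
      rw [tsum_mul_left]
    rw [h2, h3] at h1
    -- the diagonal and the rest
    have h4 : ∀ i, ∑ j, (N⁻¹ * (y s i * y s j)) * Γ s i j ≤
        W s * (y s i) ^ 2 +
          ∑ j, N⁻¹ * ((|E| * W s) ^ 2 * (if i ≠ j then |Γ s i j| else 0)) := by
      intro i
      have hNi : 0 < N⁻¹ := inv_pos.2 hN
      have h5 : ∀ j, (N⁻¹ * (y s i * y s j)) * Γ s i j ≤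
          (if i = j then W s * (y s i) ^ 2 else 0) +
            N⁻¹ * ((|E| * W s) ^ 2 * (if i ≠ j then |Γ s i j| else 0)) := by
        intro j
        by_cases hij : i = j
        · subst hij
          rw [if_pos rfl, if_neg (by simp), mul_zero, mul_zero, add_zero]
          have h6 : Γ s i i ≤ N * W s := by
            have : Γ s i i = ∑' v, w s v * κ i i v := rfl
            rw [this]
            have h7 : ∑' v, w s v * κ i i v ≤ ∑' v, w s v * N :=
              Summable.tsum_le_tsum (fun v => mul_le_mul_of_nonneg_left (hκd i v) (hs0 v))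
                (hκs i i).1 (hss.mul_right _)
            rw [tsum_mul_right, mul_comm] at h7
            exact h7
          have h8 : 0 ≤ N⁻¹ * (y s i * y s i) := mul_nonneg hNi.le (mul_self_nonneg _)
          calc (N⁻¹ * (y s i * y s i)) * Γ s i i ≤ (N⁻¹ * (y s i * y s i)) * (N * W s) :=
                mul_le_mul_of_nonneg_left h6 h8
            _ = W s * (y s i) ^ 2 := by field_simp
        · rw [if_neg hij, if_pos hij, zero_add, mul_assoc]
          refine mul_le_mul_of_nonneg_left ?_ hNi.le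
          calc y s i * y s j * Γ s i j ≤ |y s i * y s j * Γ s i j| := le_abs_self _
            _ = |y s i| * |y s j| * |Γ s i j| := by rw [abs_mul, abs_mul]
            _ ≤ (|E| * W s) * (|E| * W s) * |Γ s i j| := by
                have h9 := hyb i
                have h10 := hyb j
                have h11 : 0 ≤ |E| * W s := mul_nonneg (abs_nonneg _) hW0
                gcongr
            _ = _ := by ring
      refine (Finset.sum_le_sum (fun j _ => h5 j)).trans (le_of_eq ?_)
      rw [Finset.sum_add_distrib, Finset.sum_ite_eq, if_pos (Finset.mem_univ i)]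
    have h12 : ∑ i, ∑ j, (N⁻¹ * (y s i * y s j)) * Γ s i j ≤ W s * ∑ i, (y s i) ^ 2 + δ s := by
      refine (Finset.sum_le_sum (fun i _ => h4 i)).trans (le_of_eq ?_)
      rw [Finset.sum_add_distrib, Finset.mul_sum]
      congr 1
      have : δ s = N⁻¹ * ((|E| * W s) ^ 2 * ∑ i, ∑ j, (if i ≠ j then |Γ s i j| else 0)) := rfl
      rw [this, Finset.mul_sum, Finset.mul_sum]
      refine Finset.sum_congr rfl (fun i _ => ?_)
      rw [Finset.mul_sum, Finset.mul_sum]
    linarith
  -- limits
  have hδ0 : Tendsto δ (𝓝[>] 1) (𝓝 0) := by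
    have h1 : Tendsto (fun s => ∑ i, ∑ j, (if i ≠ j then |Γ s i j| else 0)) (𝓝[>] (1 : ℝ))
        (𝓝 (∑ i : ι, ∑ j : ι, (0 : ℝ))) := by
      refine tendsto_finsetSum _ (fun i _ => tendsto_finsetSum _ (fun j _ => ?_))
      by_cases hij : i = j
      · simp [hij]
      · simp only [ne_eq, hij, not_false_eq_true, if_true]
        have := (hlim i j hij).abs
        rwa [abs_zero] at this
    have h2 : Tendsto (fun s => (|E| * W s) ^ 2) (𝓝[>] (1 : ℝ)) (𝓝 ((|E| * 1) ^ 2)) :=
      (hW.const_mul _).pow 2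
    have h3 := (h2.mul h1).const_mul N⁻¹
    have h4 : N⁻¹ * ((|E| * 1) ^ 2 * ∑ i : ι, ∑ j : ι, (0 : ℝ)) = 0 := by simp
    rw [h4] at h3
    exact h3
  have hΦ : Tendsto (fun s => (N * A * W s + δ s) / (2 - W s)) (𝓝[>] (1 : ℝ))
      (𝓝 (N * A)) := by
    have h1 : Tendsto (fun s => (N * A * W s + δ s) / (2 - W s)) (𝓝[>] (1 : ℝ))
      (𝓝 ((N * A * 1 + 0) / (2 - 1))) :=
      ((hW.const_mul _).add hδ0).div (tendsto_const_nhds.sub hW) (by norm_num)
    have h2 : (N * A * 1 + 0) / (2 - 1) = N * A := by norm_num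
    rwa [h2] at h1
  have hev1 : ∀ᶠ s in 𝓝[>] (1 : ℝ), (N * A * W s + δ s) / (2 - W s) < N * A + ε :=
    hΦ.eventually_lt_const (by linarith)
  have hev2 : ∀ᶠ s in 𝓝[>] (1 : ℝ), W s < 2 := hW.eventually_lt_const (by norm_num)
  filter_upwards [hw, hev1, hev2] with s h1 h2 h3
  have h4 := hmain s h1.1 h1.2
  have h5 : 0 < 2 - W s := by linarith
  have h6 : ∑ i, (y s i) ^ 2 ≤ (N * A * W s + δ s) / (2 - W s) := by
    rw [le_div_iff₀ h5]
    linarith
  exact h6.trans h2.le

end

end Pool.Agent.Helper24.SE
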