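import Pool.Agent.Helper96.SE.St

/-!
# Project SE, module E9
-/

set_option autoImplicit false

namespace Pool.Agent.Helper24.SE

open Polynomial
open Pool.Agent.Helper96.SE Pool.Agent.Helper96.BC Pool.Agent.Helper95.TT Pool.Agent.Helper24.TF
  Pool.Agent.Helper95.WS
open scoped Classical

noncomputable section

theorem hE9 : StE7 → StE8 → StE9 := by
  intro hE7 hE8 F _ _ n h hn hd hsq ι _ a y t ha
  obtain ⟨h7a, h7b, -, h7d⟩ := hE7 F n hn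
  obtain ⟨h8a, h8b, -⟩ := hE8 F n h hn hd hsq
  set Ch := XX F n with hCh
  set z : MulChar F ℂ → ℂ := fun ψ => ∑ i, (y i : ℂ) * ψ (a i) with hz
  set c : MulChar F ℂ → ℂ := fun ψ => (t : ℂ) * SI n ψ h with hc
  set lam : ℝ := (n : ℝ) - 1 with hlam
  have hn2 : (2 : ℝ) ≤ n := by exact_mod_cast hn.two_le
  have hlam0 : 0 < lam := by rw [hlam]; linarith
  set Sm : ℝ := ∑ i, y i * ((tN n (C (a i) * h) : ℝ) * t) with hSm
  have e1 : ((Sm : ℝ) : ℂ) = - ∑ ψ ∈ Ch, z ψ * c ψ := by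
    have h1 : ∀ i, ((y i * ((tN n (C (a i) * h) : ℝ) * t) : ℝ) : ℂ) =
        - ∑ ψ ∈ Ch, (y i : ℂ) * ψ (a i) * (t * SI n ψ h) := by
      intro i
      have h2 := h8a (a i) (ha i)
      push_cast
      rw [h2, neg_mul, mul_neg, neg_inj, Finset.sum_mul, Finset.mul_sum]
      refine Finset.sum_congr rfl (fun ψ _ => ?_)
      ring
    rw [hSm, Complex.ofReal_sum, Finset.sum_congr rfl (fun i _ => h1 i), Finset.sum_neg_distrib,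
      Finset.sum_comm]
    congr 1
    refine Finset.sum_congr rfl (fun ψ _ => ?_)
    rw [hz, hc]
    simp only [Finset.sum_mul]
  have e2 : Sm ≤ ∑ ψ ∈ Ch, ‖z ψ‖ * ‖c ψ‖ := by
    calc Sm ≤ |Sm| := le_abs_self _
      _ = ‖((Sm : ℝ) : ℂ)‖ := by rw [Complex.norm_real, Real.norm_eq_abs]
      _ = ‖∑ ψ ∈ Ch, z ψ * c ψ‖ := by rw [e1, norm_neg]
      _ ≤ ∑ ψ ∈ Ch, ‖z ψ * c ψ‖ := norm_sum_le _ _
      _ = _ := Finset.sum_congr rfl (fun ψ _ => norm_mul _ _)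
  have e3 : 2 * Sm ≤ lam * ∑ ψ ∈ Ch, ‖c ψ‖ ^ 2 + lam⁻¹ * ∑ ψ ∈ Ch, ‖z ψ‖ ^ 2 := by
    have h1 : ∀ ψ, 2 * (‖z ψ‖ * ‖c ψ‖) ≤ lam * ‖c ψ‖ ^ 2 + lam⁻¹ * ‖z ψ‖ ^ 2 := by
      intro ψ
      have h2 : 0 ≤ lam⁻¹ * (lam * ‖c ψ‖ - ‖z ψ‖) ^ 2 := by positivity
      have h3 : lam⁻¹ * (lam * ‖c ψ‖ - ‖z ψ‖) ^ 2 =
          lam * ‖c ψ‖ ^ 2 + lam⁻¹ * ‖z ψ‖ ^ 2 - 2 * (‖z ψ‖ * ‖c ψ‖) := by
        field_simp
        ring
      linarith
    calc 2 * Sm ≤ 2 * ∑ ψ ∈ Ch, ‖z ψ‖ * ‖c ψ‖ := by linarith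
      _ = ∑ ψ ∈ Ch, 2 * (‖z ψ‖ * ‖c ψ‖) := Finset.mul_sum _ _ _
      _ ≤ ∑ ψ ∈ Ch, (lam * ‖c ψ‖ ^ 2 + lam⁻¹ * ‖z ψ‖ ^ 2) := Finset.sum_le_sum (fun ψ _ => h1 ψ)
      _ = _ := by rw [Finset.sum_add_distrib, Finset.mul_sum, Finset.mul_sum]
  have e4 : ∑ ψ ∈ Ch, ‖c ψ‖ ^ 2 ≤
      lam * (dd n h.natDegree * √(Fintype.card F) * t) ^ 2 := by
    have h1 : ∀ ψ ∈ Ch, ‖c ψ‖ ^ 2 ≤ (dd n h.natDegree * √(Fintype.card F) * t) ^ 2 := by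
      intro ψ hψ
      have h2 : ‖c ψ‖ = |t| * ‖SI n ψ h‖ := by
        rw [hc]
        simp only [norm_mul, Complex.norm_real, Real.norm_eq_abs]
      rw [h2, mul_pow, sq_abs, mul_pow _ t 2, mul_comm]
      exact mul_le_mul_of_nonneg_right (pow_le_pow_left₀ (norm_nonneg _) (h8b ψ hψ) 2)
        (sq_nonneg _)
    calc ∑ ψ ∈ Ch, ‖c ψ‖ ^ 2 ≤ ∑ ψ ∈ Ch, (dd n h.natDegree * √(Fintype.card F) * t) ^ 2 :=
          Finset.sum_le_sum h1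
      _ = (Ch.card : ℝ) * (dd n h.natDegree * √(Fintype.card F) * t) ^ 2 := by
          rw [Finset.sum_const, nsmul_eq_mul]
      _ ≤ _ := by
          refine mul_le_mul_of_nonneg_right ?_ (sq_nonneg _)
          have h3 : (Ch.card : ℝ) ≤ ((n - 1 : ℕ) : ℝ) := by exact_mod_cast h7b
          rw [Nat.cast_sub hn.one_le] at h3
          rw [hlam]; simpa using h3
  have e5 : ∑ ψ ∈ Ch, ‖z ψ‖ ^ 2 = ∑ i, ∑ j, y i * y j *
      ((Nat.card {z : F // z ^ n = a i * a j ^ (n - 1)} : ℝ) - 1) := by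
    have h1 : ((∑ ψ ∈ Ch, ‖z ψ‖ ^ 2 : ℝ) : ℂ) = ((∑ i, ∑ j, y i * y j *
      ((Nat.card {z : F // z ^ n = a i * a j ^ (n - 1)} : ℝ) - 1) : ℝ) : ℂ) := by
      rw [Complex.ofReal_sum]
      have h2 : ∀ ψ ∈ Ch, ((‖z ψ‖ ^ 2 : ℝ) : ℂ) =
          ∑ i, ∑ j, (y i : ℂ) * y j * ψ (a i * a j ^ (n - 1)) := by
        intro ψ hψ
        rw [Complex.ofReal_pow, ← Complex.mul_conj']
        rw [hz]
        simp only [map_sum, map_mul, Complex.conj_ofReal]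
        rw [Finset.sum_mul]
        refine Finset.sum_congr rfl (fun i _ => ?_)
        rw [Finset.mul_sum]
        refine Finset.sum_congr rfl (fun j _ => ?_)
        have h3 := (h7d ψ hψ (a i) (a j) (ha i) (ha j)).1
        rw [map_mul] at h3
        linear_combination (y i : ℂ) * y j * h3
      rw [Finset.sum_congr rfl h2, Finset.sum_comm]
      push_cast
      refine Finset.sum_congr rfl (fun i _ => ?_)
      rw [Finset.sum_comm]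
      refine Finset.sum_congr rfl (fun j _ => ?_)
      rw [← Finset.mul_sum, h7a (a i * a j ^ (n - 1))]
      ring
    exact_mod_cast h1
  calc 2 * Sm ≤ lam * ∑ ψ ∈ Ch, ‖c ψ‖ ^ 2 + lam⁻¹ * ∑ ψ ∈ Ch, ‖z ψ‖ ^ 2 := e3
    _ ≤ lam * (lam * (dd n h.natDegree * √(Fintype.card F) * t) ^ 2) +
        lam⁻¹ * ∑ ψ ∈ Ch, ‖z ψ‖ ^ 2 := by
        have := mul_le_mul_of_nonneg_left e4 hlam0.le
        linarith
    _ = _ := by rw [e5]

end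

end Pool.Agent.Helper24.SE
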